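import Mathlib
import Pool.Agent.Helper35.PI.St3

/-!
Module SB of project PI (MP_b2fa09_gt): the barrier at a minimum leads to a contradiction.
-/

namespace Helper23.PI

open Helper35.PI
open scoped ContDiff Manifold Topology ENNReal BigOperators
open MeasureTheory Set Filter

lemma sb_exp_fd {n : ℕ} (K : ℝ) (z : EE n × ℝ) :
    HasFDerivAt (fun z : EE n × ℝ => Real.exp (K * z.2))
      (Real.exp (K * z.2) • (K • ContinuousLinearMap.snd ℝ (EE n) ℝ)) z :=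
  ((hasFDerivAt_snd (p := z)).const_mul K).exp

lemma sb_exp_jg {n : ℕ} (K : ℝ) (z : EE n × ℝ) (k : Fin n) :
    jg (fun z : EE n × ℝ => Real.exp (K * z.2)) z k = 0 := by
  unfold jg
  rw [(sb_exp_fd K z).fderiv]
  simp

lemma sb_exp_jh {n : ℕ} (K : ℝ) (z : EE n × ℝ) :
    jh (fun z : EE n × ℝ => Real.exp (K * z.2)) z = K * Real.exp (K * z.2) := by
  unfold jh jgg
  have h0 : ∀ k, (fun z' : EE n × ℝ => jg (fun z : EE n × ℝ => Real.exp (K * z.2)) z' k)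
      = fun _ => 0 := by
    intro k
    funext z'
    exact sb_exp_jg K z' k
  simp only [h0]
  have h1 : ∀ k, jg (fun _ : EE n × ℝ => (0 : ℝ)) z k = 0 := by
    intro k
    unfold jg
    simp
  simp only [h1, Finset.sum_const_zero, sub_zero]
  unfold jt
  rw [(sb_exp_fd K z).fderiv]
  simp [mul_comm]

lemma sb_exp_cd {n : ℕ} (K : ℝ) (z : EE n × ℝ) :
    ContDiffAt ℝ 2 (fun z : EE n × ℝ => Real.exp (K * z.2)) z :=
  (contDiff_const.mul contDiff_snd).exp.contDiffAt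

lemma sb_in {n N : ℕ} (L : EE n →ₗᵢ[ℝ] EE N) (i k : Fin n) :
    (inner ℝ (L (ee i)) (L (ee k)) : ℝ) = if i = k then 1 else 0 := by
  rw [L.inner_map_map]
  unfold ee
  rw [EuclideanSpace.inner_single_left]
  by_cases h : i = k
  · simp [h]
  · simp [h]

lemma sb_sum {n N : ℕ} (L : EE n →ₗᵢ[ℝ] EE N) (v : EE n) : L v = ∑ k, v k • L (ee k) := by
  have h : v = ∑ k, v k • ee k := by
    ext i
    simp [ee, Finset.sum_apply, Pi.single_apply]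
  conv_lhs => rw [h]
  rw [map_sum]
  simp only [map_smul]

lemma sb_proj {n N : ℕ} (L : EE n →ₗᵢ[ℝ] EE N) (S : Submodule ℝ (EE N))
    (hS : LinearMap.range L.toLinearMap = S) (w : EE N)
    (h : ∀ v ∈ Sᗮ, ‖v‖ = 1 → (inner ℝ w v : ℝ) ^ 2 ≤ ‖w‖ ^ 2 / 2) :
    ‖w‖ ^ 2 / 2 ≤ ∑ k, (inner ℝ w (L (ee k)) : ℝ) ^ 2 := by
  set wT : EE N := ∑ k, (inner ℝ w (L (ee k)) : ℝ) • L (ee k) with hwT
  set wN : EE N := w - wT with hwN
  have h1 : ∀ k, (inner ℝ wN (L (ee k)) : ℝ) = 0 := by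
    intro k
    rw [hwN, inner_sub_left, hwT, sum_inner]
    simp only [inner_smul_left, sb_in]
    simp
  have h2 : ∀ v : EE n, (inner ℝ wN (L v) : ℝ) = 0 := by
    intro v
    rw [sb_sum L v, inner_sum]
    simp only [inner_smul_right, h1]
    simp
  have h3 : wN ∈ Sᗮ := by
    rw [Submodule.mem_orthogonal']
    intro y hy
    rw [← hS] at hy
    obtain ⟨v, rfl⟩ := hy
    exact h2 v
  have h4 : (inner ℝ wN wT : ℝ) = 0 := by
    rw [hwT, inner_sum]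
    simp only [inner_smul_right, h1]
    simp
  have h5 : (inner ℝ w wN : ℝ) = ‖wN‖ ^ 2 := by
    have : w = wN + wT := by rw [hwN]; abel
    rw [this, inner_add_left, real_inner_comm wN wT, h4, real_inner_self_eq_norm_sq]
    ring
  have h6 : ‖wN‖ ^ 2 = ‖w‖ ^ 2 - ∑ k, (inner ℝ w (L (ee k)) : ℝ) ^ 2 := by
    rw [← h5, hwN, inner_sub_right, real_inner_self_eq_norm_sq, hwT, inner_sum]
    congr 1
    refine Finset.sum_congr rfl fun k _ => ?_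
    rw [inner_smul_right]
    ring
  by_cases h0 : wN = 0
  · have : ‖wN‖ ^ 2 = 0 := by rw [h0]; simp
    have hw : 0 ≤ ‖w‖ ^ 2 := by positivity
    linarith
  · have hpos : 0 < ‖wN‖ := norm_pos_iff.mpr h0
    have h7 := h ((1 / ‖wN‖) • wN) (Submodule.smul_mem _ _ h3) (by
      rw [norm_smul, norm_div, norm_one, norm_norm]
      field_simp)
    rw [inner_smul_right, h5] at h7
    have h8 : (1 / ‖wN‖ * ‖wN‖ ^ 2) ^ 2 = ‖wN‖ ^ 2 := by
      field_simp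
    rw [h8] at h7
    linarith

lemma sb_quad (a α ρ ξ : ℝ) (h : a ^ 2 < α * ρ ^ 2) : -α * ξ ^ 2 + 4 * ξ * a - 4 * ρ ^ 2 < 0 := by
  have hα : 0 < α := by
    by_contra hc
    push Not at hc
    have h1 : α * ρ ^ 2 ≤ 0 := mul_nonpos_of_nonpos_of_nonneg hc (sq_nonneg ρ)
    nlinarith [sq_nonneg a]
  have h2 : α * (-α * ξ ^ 2 + 4 * ξ * a - 4 * ρ ^ 2)
      = -(α * ξ - 2 * a) ^ 2 + 4 * (a ^ 2 - α * ρ ^ 2) := by ring
  have h3 : α * (-α * ξ ^ 2 + 4 * ξ * a - 4 * ρ ^ 2) < 0 := by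
    rw [h2]
    nlinarith [sq_nonneg (α * ξ - 2 * a)]
  by_contra hc
  push Not at hc
  have := mul_nonneg hα.le hc
  linarith

theorem hSB (hJA : StJA) (hJB : StJB) (hMP : StMP) (hG1 : StG1) (hG7 : StG7) (hG8 : StG8)
    (hG10 : StG10) (hC4 : StC4) (hSA : StSA) : StSB := by
  intro n N hn M _ _ _ F hF c ε K α e' ρ B xc xc' p₀ t₀ hε hc hc3 ht₀ hpin hK he' hρ hxc hxc'
    hB hin htilt hdisc hmin
  obtain ⟨L, u, θ, hG, hθ0, hθc, hrange, hev⟩ := hC4 n N M F hF p₀ t₀ ht₀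
  set x₀ : EE N := F p₀ t₀ with hx₀
  set w : EE N := x₀ - xc t₀ with hw
  set z₀ : EE n × ℝ := ((0 : EE n), t₀) with hz₀
  set A := jgg u z₀ with hA
  set T := jggg u z₀ with hT
  obtain ⟨hX1, hX2, -, hX4⟩ := hG7 n N x₀ L u t₀ hG A T rfl rfl
  obtain ⟨hY1, hY2, -, hY4⟩ := hG8 n N x₀ L u t₀ hG A T rfl rfl
  obtain ⟨hA1, hT1, -, -⟩ := hG1 n N x₀ L u t₀ hG
  obtain ⟨-, hD⟩ := hG10 n N x₀ L u t₀ hG
  obtain ⟨hD1, hD2, hD3⟩ := hD xc xc' hxc hxc'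
  have h32 : (2 : WithTop ℕ∞) ≤ 3 := by norm_num
  have hX1' : ContDiffAt ℝ 2 (Xf x₀ L u) z₀ := hX1.of_le h32
  have hY1' : ContDiffAt ℝ 2 (Yf x₀ L u) z₀ := hY1.of_le h32
  -- values at z₀
  have hev0 := hev.self_of_nhds
  have hθz : θ z₀ = p₀ := hθ0
  have hz2 : z₀.2 = t₀ := rfl
  have hz1 : z₀.1 = 0 := rfl
  obtain ⟨e1, e2, e3, -⟩ := hev0
  have hXv : AA (n := n) F p₀ t₀ = XX A := by
    rw [← hX2]
    have := e3
    rw [hθz] at this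
    exact this
  have hYv : ‖HH (n := n) F p₀ t₀‖ ^ 2 = YY A := by
    rw [← hY2]
    have := e2
    rw [hθz] at this
    have h' : HH (n := n) F p₀ t₀ = mcv (grf x₀ L u t₀) 0 := this
    rw [h']
    rfl
  have hpin0 : XX A ≤ (c - ε) * YY A := by
    rw [← hXv, ← hYv]
    exact hpin p₀ t₀ ht₀
  have hYnn : 0 ≤ YY A := by
    unfold YY
    positivity
  have hSA0 := hSA n N A T c ε hA1 hT1 hε hc hc3 hpin0
  -- the functions
  set g : EE n × ℝ → ℝ := fun z => c • Yf x₀ L u z - Xf x₀ L u z with hg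
  set ξ : EE n × ℝ → ℝ := fun z => ρ ^ 2 - ‖grf x₀ L u z.2 z.1 - xc z.2‖ ^ 2 with hξ
  set φ1 : EE n × ℝ → ℝ := fun z => Real.exp (K * z.2) * g z with hφ1
  set q : EE n × ℝ → ℝ := fun z => ξ z * ξ z with hq
  set φ2 : EE n × ℝ → ℝ := fun z => Real.exp (-α * z.2) * q z with hφ2
  set ψ : EE n × ℝ → ℝ := fun z => e' • φ2 z - φ1 z with hψ
  have hJ := hJA n ℝ z₀
  obtain ⟨-, hJc, hJs, hJm, -⟩ := hJ
  obtain ⟨hP, -⟩ := hJB n N z₀
  have hcY : ContDiffAt ℝ 2 (fun z => c • Yf x₀ L u z) z₀ := hY1'.const_smul c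
  have hgC : ContDiffAt ℝ 2 g z₀ := hcY.sub hX1'
  have hgh : jh g z₀ = c * hY A T - hX A T := by
    have h1 := (hJs _ _ hcY hX1').2.2.2
    have h2 := (hJm (Yf x₀ L u) c hY1').2
    rw [h2] at h1
    rw [hg, h1, hX4, hY4]
    rfl
  have hξC : ContDiffAt ℝ 2 ξ z₀ := contDiffAt_const.sub hD1
  have hcc : ContDiffAt ℝ 2 (fun _ : EE n × ℝ => ρ ^ 2) z₀ := contDiffAt_const
  have hξg : ∀ k, jg ξ z₀ k = -2 * inner ℝ w (L (ee k)) := by
    intro k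
    have h1 := (hJs _ _ hcc hD1).2.2.1 k
    have h2 := (hJc (ρ ^ 2)).1 k
    rw [hξ, h1, h2, hD2 k]
    ring
  have hξh : jh ξ z₀ = 2 * n + 2 * inner ℝ w xc' := by
    have h1 := (hJs _ _ hcc hD1).2.2.2
    have h2 := (hJc (ρ ^ 2)).2
    rw [hξ, h1, h2, hD3]
    ring
  have hφ1C : ContDiffAt ℝ 2 φ1 z₀ := (sb_exp_cd K z₀).mul hgC
  have hφ1h : jh φ1 z₀ = Real.exp (K * t₀) * (K * g z₀ + jh g z₀) := by
    have h1 := (hP _ _ (sb_exp_cd K z₀) hgC).2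
    rw [hφ1, h1, sb_exp_jh]
    simp only [sb_exp_jg, zero_mul, Finset.sum_const_zero, mul_zero, sub_zero]
    rw [hz2]
    ring
  have hqC : ContDiffAt ℝ 2 q z₀ := hξC.mul hξC
  have hqh : jh q z₀ = 2 * ξ z₀ * jh ξ z₀ - 2 * ∑ k, jg ξ z₀ k * jg ξ z₀ k := by
    have h1 := (hP _ _ hξC hξC).2
    rw [hq, h1]
    ring
  have hφ2C : ContDiffAt ℝ 2 φ2 z₀ := (sb_exp_cd (-α) z₀).mul hqC
  have hφ2h : jh φ2 z₀ = Real.exp (-α * t₀) * (-α * q z₀ + jh q z₀) := by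
    have h1 := (hP _ _ (sb_exp_cd (-α) z₀) hqC).2
    rw [hφ2, h1, sb_exp_jh]
    simp only [sb_exp_jg, zero_mul, Finset.sum_const_zero, mul_zero, sub_zero]
    rw [hz2]
    ring
  have hsC : ContDiffAt ℝ 2 (fun z => e' • φ2 z) z₀ := hφ2C.const_smul e'
  have hψC : ContDiffAt ℝ 2 ψ z₀ := hsC.sub hφ1C
  have hψh : jh ψ z₀ = e' * jh φ2 z₀ - jh φ1 z₀ := by
    have h1 := (hJs _ _ hsC hφ1C).2.2.2
    have h2 := (hJm φ2 e' hφ2C).2
    rw [h2] at h1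
    rw [hψ, h1]
    rfl
  -- local maximum of ψ
  have hmap : Tendsto (fun z : EE n × ℝ => (θ z, z.2)) (𝓝 z₀) (𝓝 (p₀, t₀)) := by
    have h1 : ContinuousAt (fun z : EE n × ℝ => (θ z, z.2)) z₀ :=
      hθc.prodMk continuousAt_snd
    have h2 := h1.tendsto
    rw [hθz] at h2
    exact h2
  have hmax : ∀ᶠ z in 𝓝 z₀, z.2 ≤ t₀ → ψ z ≤ ψ z₀ := by
    filter_upwards [hmap.eventually hmin, hev] with z hz1 hz2' hz3
    obtain ⟨f1, f2, f3, -⟩ := hz2'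
    have h1 := hz1 hz3
    simp only [gF] at h1
    rw [f1, f2, f3] at h1
    have hψz : ψ z = e' * Real.exp (-α * z.2) * (ρ ^ 2 - ‖grf x₀ L u z.2 z.1 - xc z.2‖ ^ 2) ^ 2
        - Real.exp (K * z.2) * (c * ‖mcv (grf x₀ L u z.2) z.1‖ ^ 2
          - nsq (grf x₀ L u z.2) z.1) := by
      simp only [hψ, hφ2, hφ1, hq, hξ, hg, Yf, Xf, smul_eq_mul]
      ring
    have hψ0 : ψ z₀ = e' * Real.exp (-α * t₀) * (ρ ^ 2 - ‖x₀ - xc t₀‖ ^ 2) ^ 2
        - Real.exp (K * t₀) * (c * ‖HH (n := n) F p₀ t₀‖ ^ 2 - AA (n := n) F p₀ t₀) := by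
      have g1 : grf x₀ L u t₀ 0 = x₀ := by
        have := e1
        rw [hθz] at this
        exact this.symm
      rw [hXv, hYv, ← hX2, ← hY2]
      have : ψ z₀ = e' * (Real.exp (-α * t₀) *
          ((ρ ^ 2 - ‖grf x₀ L u t₀ 0 - xc t₀‖ ^ 2) * (ρ ^ 2 - ‖grf x₀ L u t₀ 0 - xc t₀‖ ^ 2)))
          - Real.exp (K * t₀) * (c * Yf x₀ L u z₀ - Xf x₀ L u z₀) := rfl
      rw [this, g1]
      ring
    rw [hψz, hψ0]
    linarith
  have hfin := (hMP n 0 t₀ ψ hψC hmax).2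
  -- estimates
  have hg0 : g z₀ = c * YY A - XX A := by
    rw [← hX2, ← hY2]
    rfl
  have hgnn : 0 ≤ g z₀ := by
    rw [hg0]
    nlinarith [mul_nonneg hε.le hYnn]
  have hKY : 3 * c ^ 2 / ε * YY A ≤ K := by
    rw [← hYv]
    exact hK
  have hfirst : 0 ≤ K * g z₀ + jh g z₀ := by
    rw [hgh]
    have h1 : (3 * c ^ 2 / ε * YY A) * g z₀ ≤ K * g z₀ := mul_le_mul_of_nonneg_right hKY hgnn
    rw [← hg0] at hSA0
    linarith
  have hwρ : ‖w‖ < ρ := hin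
  have hBnn : 0 ≤ B := (norm_nonneg _).trans hB
  have hξ0 : ξ z₀ = ρ ^ 2 - ‖w‖ ^ 2 := by
    have g1 : grf x₀ L u t₀ 0 = x₀ := by
      have := e1
      rw [hθz] at this
      exact this.symm
    have : ξ z₀ = ρ ^ 2 - ‖grf x₀ L u t₀ 0 - xc t₀‖ ^ 2 := rfl
    rw [this, g1]
  have hξpos : 0 < ξ z₀ := by
    rw [hξ0]
    nlinarith [norm_nonneg w]
  have hproj := sb_proj L _ hrange w htilt
  have hsum : 2 * ‖w‖ ^ 2 ≤ ∑ k, jg ξ z₀ k * jg ξ z₀ k := by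
    have : ∑ k, jg ξ z₀ k * jg ξ z₀ k = 4 * ∑ k, (inner ℝ w (L (ee k)) : ℝ) ^ 2 := by
      rw [Finset.mul_sum]
      refine Finset.sum_congr rfl fun k _ => ?_
      rw [hξg k]
      ring
    rw [this]
    linarith
  have hin2 : (inner ℝ w xc' : ℝ) ≤ ρ * B := by
    calc (inner ℝ w xc' : ℝ) ≤ ‖w‖ * ‖xc'‖ := real_inner_le_norm _ _
      _ ≤ ρ * B := mul_le_mul hwρ.le hB (norm_nonneg _) hρ.le
  have hsecond : -α * q z₀ + jh q z₀ < 0 := by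
    have h1 := sb_quad ((n : ℝ) + ρ * B + 1) α ρ (ξ z₀) hdisc
    have h2 : jh q z₀ ≤ 4 * ξ z₀ * ((n : ℝ) + ρ * B + 1) - 4 * ρ ^ 2 := by
      rw [hqh, hξh]
      have h3 : ξ z₀ * (inner ℝ w xc' : ℝ) ≤ ξ z₀ * (ρ * B) :=
        mul_le_mul_of_nonneg_left hin2 hξpos.le
      nlinarith
    have h4 : q z₀ = ξ z₀ ^ 2 := by
      simp only [hq]
      ring
    rw [h4]
    linarith
  have h1 : e' * jh φ2 z₀ < 0 := by
    rw [hφ2h]
    have := mul_neg_of_pos_of_neg (Real.exp_pos (-α * t₀)) hsecond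
    exact mul_neg_of_pos_of_neg he' this
  have h2 : 0 ≤ jh φ1 z₀ := by
    rw [hφ1h]
    exact mul_nonneg (Real.exp_pos _).le hfirst
  have h3 : 0 ≤ jh ψ z₀ := hfin
  rw [hψh] at h3
  linarith

end Helper23.PI
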