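import Mathlib
import Pool.Agent.Helper35.PI.St4

/-!
Module V8 of project PI (MP_b2fa09_gt): area in extrinsic balls is bounded by Hausdorff measure
with multiplicity.
-/

namespace Helper23.PI

open Helper35.PI
open scoped ContDiff Manifold Topology ENNReal BigOperators
open MeasureTheory Set Filter

section V8

variable {n N : ℕ}

lemma v8_sgm_meas (f : EE n → EE N) : Measurable (fun y => sgm f y) := by
  unfold sgm
  apply Measurable.sqrt
  have h : ∀ i j, Measurable (fun y => gram f y i j) := by
    intro i j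
    unfold gram dv1
    simp only [Matrix.of_apply]
    exact (measurable_fderiv_apply_const ℝ f (ee i)).inner
      (measurable_fderiv_apply_const ℝ f (ee j))
  have h2 : (fun y => (gram f y).det) = fun y => ∑ σ : Equiv.Perm (Fin n),
      ((Equiv.Perm.sign σ : ℤ) : ℝ) * ∏ i, gram f y (σ i) i := by
    funext y
    exact Matrix.det_apply' _
  rw [h2]
  refine Finset.measurable_sum _ fun σ _ => ?_
  exact measurable_const.mul (Finset.measurable_prod _ fun i _ => h _ _)

lemma v8_tsum_le {α : Type*} [MeasurableSpace α] (μ : Measure α) (f : ℕ → α → ℝ≥0∞) :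
    ∑' i, ∫⁻ a, f i a ∂μ ≤ ∫⁻ a, ∑' i, f i a ∂μ := by
  rw [ENNReal.tsum_eq_iSup_sum]
  refine iSup_le fun s => ?_
  have h : ∀ s : Finset ℕ, ∑ i ∈ s, ∫⁻ a, f i a ∂μ ≤ ∫⁻ a, ∑ i ∈ s, f i a ∂μ := by
    intro s
    induction s using Finset.induction_on with
    | empty => simp
    | insert a s ha ih =>
      simp only [Finset.sum_insert ha]
      calc ∫⁻ x, f a x ∂μ + ∑ i ∈ s, ∫⁻ x, f i x ∂μ
          ≤ ∫⁻ x, f a x ∂μ + ∫⁻ x, ∑ i ∈ s, f i x ∂μ := by gcongr
        _ ≤ _ := le_lintegral_add _ _
  refine (h s).trans (lintegral_mono fun a => ?_)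
  exact ENNReal.sum_le_tsum s

variable {M : Type} [TopologicalSpace M] [ChartedSpace (EE n) M]

/-- sets which are Borel in every preferred chart -/
def v8n (n : ℕ) {M : Type} [TopologicalSpace M] [ChartedSpace (EE n) M] (A : Set M) : Prop :=
  ∀ p : M, MeasurableSet ((chartAt (EE n) p).target ∩ (chartAt (EE n) p).symm ⁻¹' A)

lemma v8n_inter_open {A W : Set M} (hA : v8n n A) (hW : IsOpen W) : v8n n (A ∩ W) := by
  intro p
  have h1 : MeasurableSet ((chartAt (EE n) p).target ∩ (chartAt (EE n) p).symm ⁻¹' W) :=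
    ((chartAt (EE n) p).symm.isOpen_inter_preimage hW).measurableSet
  have h2 : (chartAt (EE n) p).target ∩ (chartAt (EE n) p).symm ⁻¹' (A ∩ W)
      = ((chartAt (EE n) p).target ∩ (chartAt (EE n) p).symm ⁻¹' A) ∩
        ((chartAt (EE n) p).target ∩ (chartAt (EE n) p).symm ⁻¹' W) := by
    ext y
    simp only [mem_inter_iff, mem_preimage]
    tauto
  rw [h2]
  exact (hA p).inter h1

lemma v8n_diff_open {A W : Set M} (hA : v8n n A) (hW : IsOpen W) : v8n n (A \ W) := by
  intro p
  have h1 : MeasurableSet ((chartAt (EE n) p).target ∩ (chartAt (EE n) p).symm ⁻¹' W) :=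
    ((chartAt (EE n) p).symm.isOpen_inter_preimage hW).measurableSet
  have h2 : (chartAt (EE n) p).target ∩ (chartAt (EE n) p).symm ⁻¹' (A \ W)
      = ((chartAt (EE n) p).target ∩ (chartAt (EE n) p).symm ⁻¹' A) \
        ((chartAt (EE n) p).target ∩ (chartAt (EE n) p).symm ⁻¹' W) := by
    ext y
    simp only [mem_inter_iff, mem_preimage, Set.mem_sdiff]
    tauto
  rw [h2]
  exact (hA p).diff h1

/-- subadditivity of the area integral -/
lemma v8_add (F : M → ℝ → EE N) (c : ℕ → M) (χ : ℕ → M → ℝ) (t : ℝ)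
    (hχ : ∀ i, Continuous (χ i)) (A W : Set M) (hA : v8n n A) (hW : IsOpen W) :
    Lam (n := n) F c χ t (indicator A 1)
      ≤ Lam (n := n) F c χ t (indicator (A ∩ W) 1)
        + Lam (n := n) F c χ t (indicator (A \ W) 1) := by
  unfold Lam
  rw [← ENNReal.tsum_add]
  refine ENNReal.tsum_le_tsum fun i => ?_
  have hT : MeasurableSet (chartAt (EE n) (c i)).target :=
    (chartAt (EE n) (c i)).open_target.measurableSet
  rw [← lintegral_add_left']
  · refine lintegral_mono fun y => ?_
    show _ ≤ _
    rw [← add_mul, ← mul_add]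
    gcongr
    by_cases h1 : (chartAt (EE n) (c i)).symm y ∈ A
    · by_cases h2 : (chartAt (EE n) (c i)).symm y ∈ W
      · rw [indicator_of_mem h1, indicator_of_mem (show _ ∈ A ∩ W from ⟨h1, h2⟩)]
        exact le_self_add
      · rw [indicator_of_mem h1, indicator_of_mem (show _ ∈ A \ W from ⟨h1, h2⟩)]
        exact le_add_self
    · rw [indicator_of_notMem h1]
      exact bot_le
  · refine AEMeasurable.mul (AEMeasurable.mul ?_ ?_) ?_
    · refine AEMeasurable.ennreal_ofReal ?_
      refine ContinuousOn.aemeasurable ?_ hT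
      exact (hχ i).comp_continuousOn (chartAt (EE n) (c i)).continuousOn_symm
    · have h3 := v8n_inter_open hA hW (c i)
      have h4 : Measurable (indicator ((chartAt (EE n) (c i)).target ∩
          (chartAt (EE n) (c i)).symm ⁻¹' (A ∩ W)) (1 : EE n → ℝ≥0∞)) :=
        measurable_one.indicator h3
      refine h4.aemeasurable.congr ?_
      refine ae_restrict_of_forall_mem hT fun y hy => ?_
      show _ = (A ∩ W).indicator 1 ((chartAt (EE n) (c i)).symm y)
      by_cases h5 : (chartAt (EE n) (c i)).symm y ∈ A ∩ W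
      · have h6 : y ∈ (chartAt (EE n) (c i)).target ∩
            (chartAt (EE n) (c i)).symm ⁻¹' (A ∩ W) := ⟨hy, h5⟩
        rw [indicator_of_mem h5, indicator_of_mem h6]
        rfl
      · rw [indicator_of_notMem h5, indicator_of_notMem (fun h => h5 h.2)]
    · exact (v8_sgm_meas _).ennreal_ofReal.aemeasurable

open scoped Classical in
theorem hV8 (hV4 : StV4) (hV7 : StV7) (hI2 : StI2) (hI3 : StI3) : StV8 := by
  intro n
  obtain ⟨C, hC, hC7⟩ := hV7 n
  refine ⟨C, hC, ?_⟩
  intro N M _ _ _ _ F hF t ρ ht hQ c χ hPU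
  have hχ : ∀ i, Continuous (χ i) := fun i => (hPU.smooth i).continuous
  -- smoothness of the local expressions
  have hsm : ∀ p : M, ContDiffOn ℝ ∞ (loc (n := n) F p t) (chartAt (EE n) p).target := by
    intro p
    have h1 := hI2 n N M F hF p
    have h2 : ContDiffOn ℝ ∞ (fun y : EE n => (y, t)) (chartAt (EE n) p).target :=
      (contDiff_id.prodMk contDiff_const).contDiffOn
    exact h1.comp h2 fun y hy => ⟨hy, ht⟩
  have hδ : ∀ q : M, ∃ δ > 0, InjOn (loc (n := n) F q t)
      (Metric.ball (chartAt (EE n) q q) δ) ∧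
      ContinuousOn (loc (n := n) F q t) (Metric.ball (chartAt (EE n) q q) δ) ∧
      ∀ E ⊆ Metric.ball (chartAt (EE n) q q) δ, MeasurableSet E →
        ∫⁻ y in E, ENNReal.ofReal (sgm (loc (n := n) F q t) y)
          ≤ C * μH[(n : ℝ)] (loc (n := n) F q t '' E) := by
    intro q
    have h1 : ContDiffAt ℝ ∞ (loc (n := n) F q t) (chartAt (EE n) q q) :=
      (hsm q).contDiffAt ((chartAt (EE n) q).open_target.mem_nhds (mem_chart_target _ q))
    exact hC7 N _ _ (h1.of_le (by norm_cast))
      (hI3 n N M F hF q q t ht (mem_chart_source _ q)).1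
  choose δ hδ0 hinj hcont hest using hδ
  set W : M → Set M := fun k => (chartAt (EE n) k).source ∩
    (chartAt (EE n) k) ⁻¹' (Metric.ball (chartAt (EE n) k k) (δ k)) with hW
  have hWo : ∀ k, IsOpen (W k) := fun k =>
    (chartAt (EE n) k).isOpen_inter_preimage Metric.isOpen_ball
  have hWm : ∀ k, k ∈ W k := fun k =>
    ⟨mem_chart_source _ k, Metric.mem_ball_self (hδ0 k)⟩
  -- the set Q is nice
  set Q : Set M := {q : M | ‖F q t‖ ≤ ρ} with hQdef
  have hQn : v8n n Q := by
    intro p
    have h1 : IsOpen ((chartAt (EE n) p).target ∩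
        (loc (n := n) F p t) ⁻¹' {x | ρ < ‖x‖}) :=
      (hsm p).continuousOn.isOpen_inter_preimage (chartAt (EE n) p).open_target
        (isOpen_lt continuous_const continuous_norm)
    have h2 : (chartAt (EE n) p).target ∩ (chartAt (EE n) p).symm ⁻¹' Q
        = (chartAt (EE n) p).target \ ((chartAt (EE n) p).target ∩
        (loc (n := n) F p t) ⁻¹' {x | ρ < ‖x‖}) := by
      ext y
      simp only [mem_inter_iff, mem_preimage, Set.mem_sdiff, hQdef, mem_ofPred_eq, loc, not_and, not_lt]
      tauto
    rw [h2]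
    exact (chartAt (EE n) p).open_target.measurableSet.diff h1.measurableSet
  -- local estimate
  have hloc : ∀ (k : M) (A : Set M), v8n n A → A ⊆ W k → A ⊆ Q →
      Lam (n := n) F c χ t (indicator A 1) ≤ C * ∫⁻ x in Metric.closedBall (0 : EE N) ρ,
        indicator ((fun q => F q t) '' A) 1 x ∂μH[(n : ℝ)] := by
    intro k A hA hAW hAQ
    set E := (chartAt (EE n) k).target ∩ (chartAt (EE n) k).symm ⁻¹' A with hE
    have hEb : E ⊆ Metric.ball (chartAt (EE n) k k) (δ k) := by
      intro y hy
      have h1 := (hAW hy.2).2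
      rw [mem_preimage, (chartAt (EE n) k).right_inv hy.1] at h1
      exact h1
    have hFE : loc (n := n) F k t '' E = (fun q => F q t) '' A := by
      ext x
      constructor
      · rintro ⟨y, hy, rfl⟩
        exact ⟨_, hy.2, rfl⟩
      · rintro ⟨a, ha, rfl⟩
        have h1 := (hAW ha).1
        refine ⟨chartAt (EE n) k a, ⟨(chartAt (EE n) k).map_source h1, ?_⟩, ?_⟩
        · rw [mem_preimage, (chartAt (EE n) k).left_inv h1]
          exact ha
        · show F ((chartAt (EE n) k).symm (chartAt (EE n) k a)) t = F a t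
          rw [(chartAt (EE n) k).left_inv h1]
    have hBm : MeasurableSet ((fun q => F q t) '' A) := by
      rw [← hFE]
      exact (hA k).image_of_continuousOn_injOn ((hcont k).mono hEb) ((hinj k).mono hEb)
    have h5 : ∫⁻ x in Metric.closedBall (0 : EE N) ρ,
        indicator ((fun q => F q t) '' A) 1 x ∂μH[(n : ℝ)]
        = μH[(n : ℝ)] ((fun q => F q t) '' A) := by
      rw [lintegral_indicator_one hBm, Measure.restrict_apply hBm]
      congr 1
      refine inter_eq_left.2 ?_
      rintro _ ⟨a, ha, rfl⟩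
      rw [Metric.mem_closedBall, dist_zero_right]
      exact hAQ ha
    rw [h5, ← hFE]
    refine le_trans ?_ (hest k E hEb (hA k))
    unfold Lam
    have h6 : ∀ i, ∫⁻ y in (chartAt (EE n) (c i)).target,
        ENNReal.ofReal (χ i ((chartAt (EE n) (c i)).symm y)) *
          (indicator A 1 : M → ℝ≥0∞) ((chartAt (EE n) (c i)).symm y) *
          ENNReal.ofReal (sgm (loc (n := n) F (c i) t) y)
        = ∫⁻ y in (chartAt (EE n) k).target,
          ENNReal.ofReal (χ i ((chartAt (EE n) k).symm y)) *
          (indicator A 1 : M → ℝ≥0∞) ((chartAt (EE n) k).symm y) *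
          ENNReal.ofReal (sgm (loc (n := n) F k t) y) := by
      intro i
      refine (hV4 n N M F hF t ht (c i) k).1
        (fun q => ENNReal.ofReal (χ i q) * (indicator A 1 : M → ℝ≥0∞) q) ?_
      intro q hq
      have h7 : ENNReal.ofReal (χ i q) ≠ 0 := left_ne_zero_of_mul hq
      have h8 : (indicator A 1 : M → ℝ≥0∞) q ≠ 0 := right_ne_zero_of_mul hq
      have h9 : χ i q ≠ 0 := by
        intro h
        rw [h, ENNReal.ofReal_zero] at h7
        exact h7 rfl
      exact ⟨hPU.sub i (subset_tsupport _ h9), (hAW (mem_of_indicator_ne_zero h8)).1⟩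
    rw [tsum_congr h6]
    refine (v8_tsum_le _ _).trans ?_
    have h10 : ∀ y, ∑' i, ENNReal.ofReal (χ i ((chartAt (EE n) k).symm y)) *
          (indicator A 1 : M → ℝ≥0∞) ((chartAt (EE n) k).symm y) *
          ENNReal.ofReal (sgm (loc (n := n) F k t) y)
        = (indicator A 1 : M → ℝ≥0∞) ((chartAt (EE n) k).symm y) *
          ENNReal.ofReal (sgm (loc (n := n) F k t) y) := by
      intro y
      rw [ENNReal.tsum_mul_right, ENNReal.tsum_mul_right]
      have h11 := hPU.sum ((chartAt (EE n) k).symm y)
      rw [← ENNReal.ofReal_tsum_of_nonneg (fun i => hPU.nonneg i _) h11.summable, h11.tsum_eq,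
        ENNReal.ofReal_one, one_mul]
    simp only [h10]
    have hT : MeasurableSet (chartAt (EE n) k).target :=
      (chartAt (EE n) k).open_target.measurableSet
    have h12 : ∫⁻ y in (chartAt (EE n) k).target,
        (indicator A 1 : M → ℝ≥0∞) ((chartAt (EE n) k).symm y) *
          ENNReal.ofReal (sgm (loc (n := n) F k t) y)
        = ∫⁻ y in (chartAt (EE n) k).target,
          E.indicator (fun y => ENNReal.ofReal (sgm (loc (n := n) F k t) y)) y := by
      refine setLIntegral_congr_fun hT fun y hy => ?_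
      by_cases h13 : (chartAt (EE n) k).symm y ∈ A
      · show _ * _ = _
        rw [indicator_of_mem h13, indicator_of_mem (show y ∈ E from ⟨hy, h13⟩)]
        simp
      · show _ * _ = _
        rw [indicator_of_notMem h13, indicator_of_notMem (fun h => h13 h.2), zero_mul]
    rw [h12, setLIntegral_indicator (hA k)]
    have h14 : E ∩ (chartAt (EE n) k).target = E := inter_eq_left.2 fun y hy => hy.1
    rw [h14]
  -- induction over finite covers
  have hind : ∀ (s : Finset M) (A : Set M), v8n n A → A ⊆ Q → A ⊆ ⋃ k ∈ s, W k →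
      Lam (n := n) F c χ t (indicator A 1) ≤ C * ∫⁻ x in Metric.closedBall (0 : EE N) ρ,
        (((fun q => F q t) ⁻¹' {x} ∩ A).encard : ℝ≥0∞) ∂μH[(n : ℝ)] := by
    intro s
    induction s using Finset.induction_on with
    | empty =>
      intro A _ _ hAs
      have h1 : A = ∅ := by
        refine eq_empty_of_subset_empty (hAs.trans ?_)
        simp
      rw [h1]
      unfold Lam
      simp
    | insert k s hk ih =>
      intro A hA hAQ hAs
      have h1 := v8n_inter_open hA (hWo k)
      have h2 := v8n_diff_open hA (hWo k)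
      have h3 := hloc k (A ∩ W k) h1 inter_subset_right (inter_subset_left.trans hAQ)
      have h4 := ih (A \ W k) h2 (sdiff_subset.trans hAQ) (by
        intro a ha
        have h5 := hAs ha.1
        rw [Finset.set_biUnion_insert] at h5
        rcases h5 with h5 | h5
        · exact absurd h5 ha.2
        · exact h5)
      refine (v8_add F c χ t hχ A (W k) hA (hWo k)).trans ((add_le_add h3 h4).trans ?_)
      rw [← mul_add]
      gcongr
      refine (le_lintegral_add _ _).trans (lintegral_mono fun x => ?_)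
      show _ + _ ≤ _
      have h6 : (fun q => F q t) ⁻¹' {x} ∩ A =
          ((fun q => F q t) ⁻¹' {x} ∩ (A ∩ W k)) ∪ ((fun q => F q t) ⁻¹' {x} ∩ (A \ W k)) := by
        ext a
        simp only [mem_inter_iff, mem_preimage, mem_singleton_iff, mem_union, Set.mem_sdiff]
        tauto
      have h7 : Disjoint ((fun q => F q t) ⁻¹' {x} ∩ (A ∩ W k))
          ((fun q => F q t) ⁻¹' {x} ∩ (A \ W k)) := by
        rw [Set.disjoint_left]
        intro a ha hb
        exact hb.2.2 ha.2.2
      rw [h6, encard_union_eq h7, ENat.toENNReal_add]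
      gcongr
      by_cases h8 : x ∈ (fun q => F q t) '' (A ∩ W k)
      · rw [indicator_of_mem h8]
        obtain ⟨a, ha, hax⟩ := h8
        have h9 : (1 : ℕ∞) ≤ ((fun q => F q t) ⁻¹' {x} ∩ (A ∩ W k)).encard := by
          rw [Set.one_le_encard_iff_nonempty]
          exact ⟨a, hax, ha⟩
        have h10 := ENat.toENNReal_le.2 h9
        simpa using h10
      · rw [indicator_of_notMem h8]
        exact bot_le
  obtain ⟨s, _, hs⟩ := hQ.elim_nhds_subcover W (fun k _ => (hWo k).mem_nhds (hWm k))
  refine (hind s Q hQn le_rfl hs).trans ?_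
  gcongr with x
  exact inter_subset_left

end V8

end Helper23.PI
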